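import Pool.Agent.LibCommutantMod.Proof

set_option autoImplicit false

namespace Pool.Agent.Results.MP_1eccf6_an.NotSaturated

open Pool.Agent.LibCommutantMod

/-- Let `H` be an infinite dimensional separable complex Hilbert space. There are a normed ideal
`I` in which the finite rank operators are dense and a tuple `τ` of hermitian operators with
`0 < k_I(τ) < ∞` such that the image of the commutant of `τ` modulo `I` in the Calkin algebra is
not countably degree-1 saturated. -/
theorem result (H : Type*) [NormedAddCommGroup H] [InnerProductSpace ℂ H] [CompleteSpace H]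
    [TopologicalSpace.SeparableSpace H] (hinf : ¬ FiniteDimensional ℂ H) :
    ∃ I : NormedIdeal H, FiniteRankDense I ∧
      ∃ (n : ℕ) (τ : Fin n → (H →L[ℂ] H)), (∀ j, IsSelfAdjoint (τ j)) ∧
        0 < modulus I τ ∧ modulus I τ < ⊤ ∧
        ¬ CountablyDegreeOneSaturated (commutantMod I τ) :=
  exists_not_saturated H hinf

end Pool.Agent.Results.MP_1eccf6_an.NotSaturated
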